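import Pool.Agent.H.MP_0c3574_an.B

set_option autoImplicit false

open MeasureTheory Filter Topology Set Function Pool.Agent.H.RWM

namespace Pool.Agent.Results.MP_0c3574_an.Yes

/-- `u_i(F)` -/
noncomputable def u {X : Type} [MeasurableSpace X] (μ : Measure X) (T : X → X) (F : Set X)
    (i : ℕ) : ℝ := μ.real (T^[i] '' F ∩ F) / μ.real F ^ 2

/-- `a_n(F)` -/
noncomputable def a {X : Type} [MeasurableSpace X] (μ : Measure X) (T : X → X) (F : Set X)
    (n : ℕ) : ℝ := ∑ i ∈ Finset.range n, u μ T F i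

/-- weakly rationally ergodic -/
def WRE {X : Type} [MeasurableSpace X] (μ : Measure X) (T : X → X) : Prop :=
  ∃ F : Set X, MeasurableSet F ∧ 0 < μ F ∧ μ F < ⊤ ∧
    ∀ A B : Set X, MeasurableSet A → MeasurableSet B → A ⊆ F → B ⊆ F →
      Tendsto (fun n => 1 / a μ T F n * ∑ i ∈ Finset.range n, μ.real (T^[i] '' A ∩ B)) atTop
        (𝓝 (μ.real A * μ.real B))

/-- rationally weakly mixing -/
def RWM {X : Type} [MeasurableSpace X] (μ : Measure X) (T : X → X) : Prop :=
  ∃ F : Set X, MeasurableSet F ∧ 0 < μ F ∧ μ F < ⊤ ∧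
    ∀ A B : Set X, MeasurableSet A → MeasurableSet B → A ⊆ F → B ⊆ F →
      Tendsto (fun n => 1 / a μ T F n * ∑ i ∈ Finset.range n,
        |μ.real (T^[i] '' A ∩ B) - μ.real A * μ.real B * u μ T F i|) atTop (𝓝 0)

/-- power weakly mixing -/
def PWM {X : Type} [MeasurableSpace X] (μ : Measure X) (T : X ≃ᵐ X) : Prop :=
  ∀ r : ℕ, 1 ≤ r → ∀ k : Fin r → ℤ, (∀ i, k i ≠ 0) →
    Ergodic (fun (x : Fin r → X) (i : Fin r) => (T.toEquiv ^ k i) (x i))
      (Measure.pi fun _ : Fin r => μ)

theorem result (X : Type) [MeasurableSpace X] [StandardBorelSpace X] (μ : Measure X)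
    [SigmaFinite μ] (_hμ : μ univ = ⊤) (T : X ≃ᵐ X) (hT : MeasurePreserving T μ μ)
    (hC : Conservative T μ) (_hE : Ergodic T μ) (hW : WRE μ T)
    (hP : PWM μ T ∨ Ergodic (Prod.map T T) (μ.prod μ)) : RWM μ T := by
  have hE : PreErgodic (Prod.map T T) (μ.prod μ) := by
    rcases hP with h | h
    · refine (measurePreserving_finTwoArrow μ).preErgodic_of_preErgodic_semiconj
        (h 2 (by norm_num) (fun _ => 1) (by simp)).toPreErgodic fun x => ?_
      simp [Prod.map]
    · exact h.toPreErgodic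
  obtain ⟨F, hF, h0, h1, hW⟩ := hW
  have hp : 0 < μ.real F := ENNReal.toReal_pos h0.ne' h1.ne
  have ha : Tendsto (a μ T F) atTop atTop := by
    refine ((a_top hC hF h0 h1).atTop_div_const (pow_pos hp 2)).congr fun n => ?_
    simp only [a, u, img hT hF hF, Finset.sum_div]
  have hN : ∀ h, Sim T F h → Nice μ T (a μ T F) h := fun h hh => hh.nice hT hF h1 ha
    (fun A B hA hB h2 h3 => by simpa only [img hT hA hB] using hW A B hA hB h2 h3)
  refine ⟨F, hF, h0, h1, fun A B hA hB h2 h3 => ?_⟩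
  have := key hT hE hN (fun n => Finset.sum_nonneg fun i _ =>
      div_nonneg measureReal_nonneg (sq_nonneg _))
    (sim_rect hA hB h2 h3 1) (sim_rect hF hF subset_rfl subset_rfl
      (μ.real A * μ.real B / μ.real F ^ 2))
    (fun z => indicator_nonneg (fun _ _ => zero_le_one) z)
    (fun z => indicator_nonneg (fun _ _ => by positivity) z) (by
      rw [integral_indicator_const _ (hA.prod hB), integral_indicator_const _ (hF.prod hF),
        measureReal_prod_prod, measureReal_prod_prod, smul_eq_mul, smul_eq_mul]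
      field_simp)
  refine this.congr fun n => ?_
  simp only [Δ_rect hT hA hB, Δ_rect hT hF hF, u, img hT hA hB, img hT hF hF]
  congr 1
  refine Finset.sum_congr rfl fun i _ => ?_
  congr 1; ring

end Pool.Agent.Results.MP_0c3574_an.Yes
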